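import Pool.Agent.Helper16.NR.Stmts

/-! RK2 : two points which are independent modulo 2 are independent. -/

set_option autoImplicit false

namespace Pool.Helper16.NR

theorem rk2_aux {M : Type} [AddCommGroup M] (P Q : M) (h0 : ∀ R : M, R + R = 0 → R = 0)
    (hP : ∀ R : M, P ≠ R + R) (hQ : ∀ R : M, Q ≠ R + R) (hPQ : ∀ R : M, P + Q ≠ R + R) :
    ∀ (n : ℕ) (s t : ℤ), s.natAbs + t.natAbs = n → s • P + t • Q = 0 → s = 0 ∧ t = 0 := by
  intro n
  induction n using Nat.strong_induction_on with
  | _ n ih =>
    intro s t hn h
    rcases Int.even_or_odd' s with ⟨s', hs | hs⟩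
    · rcases Int.even_or_odd' t with ⟨t', ht | ht⟩
      · -- both even
        have h1 : (s' • P + t' • Q) + (s' • P + t' • Q) = 0 := by
          rw [← h, hs, ht]
          module
        have h2 := h0 _ h1
        by_cases hn0 : n = 0
        · omega
        · have h3 := ih (s'.natAbs + t'.natAbs) (by omega) s' t' rfl h2
          omega
      · -- s even, t odd
        exfalso
        apply hQ (-(s' • P + t' • Q))
        have h1 : Q = (s • P + t • Q) + (-(s' • P + t' • Q) + -(s' • P + t' • Q)) := by
          rw [hs, ht]
          module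
        rw [h, zero_add] at h1
        exact h1
    · rcases Int.even_or_odd' t with ⟨t', ht | ht⟩
      · exfalso
        apply hP (-(s' • P + t' • Q))
        have h1 : P = (s • P + t • Q) + (-(s' • P + t' • Q) + -(s' • P + t' • Q)) := by
          rw [hs, ht]
          module
        rw [h, zero_add] at h1
        exact h1
      · exfalso
        apply hPQ (-(s' • P + t' • Q))
        have h1 : P + Q = (s • P + t • Q) + (-(s' • P + t' • Q) + -(s' • P + t' • Q)) := by
          rw [hs, ht]
          module
        rw [h, zero_add] at h1
        exact h1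

theorem st_RK2 : ST_RK2 := by
  intro M _ P Q h0 hP hQ hPQ
  have h : LinearIndependent ℤ ![P, Q] := by
    rw [LinearIndependent.pair_iff]
    intro s t hst
    exact rk2_aux P Q h0 hP hQ hPQ _ s t rfl hst
  have h1 := h.cardinal_le_rank
  rw [Cardinal.mk_fin] at h1
  exact_mod_cast h1

end Pool.Helper16.NR

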