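import Pool.Agent.Helper16.NR.Stmts

/-! TOR : no rational 2-torsion if there is no root modulo `p`. -/

set_option autoImplicit false

namespace Pool.Helper16.NR

open Polynomial

theorem tor_int (A B : ℤ) (x : ℚ) (h : x ^ 3 + (A : ℚ) * x + (B : ℚ) = 0) : ∃ z : ℤ, (z : ℚ) = x := by
  have hm : (X ^ 3 + C A * X + C B : ℤ[X]).Monic := by
    rw [add_assoc]
    apply monic_X_pow_add
    refine lt_of_le_of_lt (degree_linear_le) ?_
    norm_num
  have hr : aeval x (X ^ 3 + C A * X + C B : ℤ[X]) = 0 := by
    simp only [map_add, map_mul, map_pow, aeval_X, aeval_C]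
    simpa using h
  have hI : IsIntegral ℤ x := ⟨_, hm, by rw [← aeval_def]; exact hr⟩
  obtain ⟨z, hz⟩ := IsIntegrallyClosed.isIntegral_iff.1 hI
  exact ⟨z, by simpa using hz⟩

theorem st_TOR : ST_TOR := by
  intro p _ A B hno Q hQ
  rcases Q with _ | ⟨x, y, h⟩
  · rfl
  · exfalso
    have h1 := eq_neg_of_add_eq_zero_left hQ
    rw [WeierstrassCurve.Affine.Point.neg_some] at h1
    injection h1 with h2 h3
    have h4 : y = 0 := by
      simp only [WeierstrassCurve.Affine.negY, cur] at h3
      linarith
    have h5 := h.left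
    rw [WeierstrassCurve.Affine.equation_iff] at h5
    simp only [cur] at h5
    rw [h4] at h5
    obtain ⟨z, hz⟩ := tor_int A B x (by linear_combination -h5)
    have h6 : z ^ 3 + A * z + B = 0 := by
      have : (z : ℚ) ^ 3 + (A : ℚ) * z + (B : ℚ) = 0 := by rw [hz]; linear_combination -h5
      exact_mod_cast this
    apply hno (z : ZMod p)
    have h7 := congrArg (fun w : ℤ => (w : ZMod p)) h6
    simpa using h7

end Pool.Helper16.NR

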